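import Mathlib
import Pool.Agent.U962.DM.Exact

/-!
# `d_m(9n) - d_m(n)`: the case `p = 3` is settled completely, and Q2 is false

For `p = 3` and all `m, n ≥ 1` the valuation of `d_m(9n) - d_m(n)` is at least
`ν(n) + 2 ν(m) + ν(m + 1) + 2`, with equality if `m` is not `2` modulo `3` or `3` does not divide
`n`.  So for `p = 3` the formula of Q1 holds, and the assertion of Q2 holds exactly for those
`m ≡ 2 (mod 3)` which are not `≡ 8 (mod 9)`.
-/

set_option autoImplicit false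

namespace Pool.Agent.Results.MP_26251e_nt.PrimeThree

open PowerSeries Finset

/-- `d p m n` is the coefficient of `x^n` in
`(1 - x)^(-m) * ∏_{j ≥ 0} (1 - x^(p^j))^(-(p-1)m)`.  For `p ≥ 2` the factors with `j > n` do not
influence this coefficient, because `p^j > n` for them; so the product over `0 ≤ j ≤ n` is taken.
Here `invOfUnit (1 - X ^ a) 1` is the inverse power series of `1 - X ^ a` (for `a ≥ 1`). -/
noncomputable def d (p m n : ℕ) : ℤ :=
  coeff n ((invOfUnit (1 - X : ℤ⟦X⟧) 1) ^ m *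
    ∏ j ∈ range (n + 1), (invOfUnit (1 - X ^ (p ^ j) : ℤ⟦X⟧) 1) ^ ((p - 1) * m))

/-- The `p`-adic valuation of `d_m(p^2 n) - d_m(n)`; it is `⊤` if this difference is `0`. -/
noncomputable def nuDiff (p m n : ℕ) : ℕ∞ := emultiplicity (p : ℤ) (d p m (p ^ 2 * n) - d p m n)

/-- `[p = 3]` -/
def ind (p : ℕ) : ℕ := if p = 3 then 1 else 0

/-- The assertion of Q2 for the pair `p, m`. -/
def Q2For (p m : ℕ) : Prop :=
  (∀ n : ℕ, 1 ≤ n → ((padicValNat p n + (4 - ind p) : ℕ) : ℕ∞) ≤ nuDiff p m n) ∧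
  {n : ℕ | 1 ≤ n ∧ nuDiff p m n = ((padicValNat p n + (4 - ind p) : ℕ) : ℕ∞)}.Infinite

/-- The assertion of Q2. -/
def Q2 : Prop := ∀ p m : ℕ, p.Prime → 3 ≤ p → 1 ≤ m → m % p = p - 1 → Q2For p m

open Pool.Agent.U962.DM in
theorem d_eq (m n : ℕ) : d 3 m n = d3 m n := by
  unfold d d3 Ps Pool.Agent.R443.PS.iv
  rw [pow_one X]

open Pool.Agent.U962.DM in
theorem lower (m n : ℕ) (hm : 1 ≤ m) (hn : 1 ≤ n) :
    ((padicValNat 3 n + 2 * padicValNat 3 m + padicValNat 3 (m + 1) + 2 : ℕ) : ℕ∞) ≤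
      nuDiff 3 m n := by
  have h := (main m n hm hn).1
  unfold nuDiff
  rw [d_eq, d_eq]
  apply le_emultiplicity_of_pow_dvd
  have e : padicValNat 3 n + 2 * padicValNat 3 m + padicValNat 3 (m + 1) + 2 =
    ee m + padicValNat 3 n := by unfold ee; ring
  rw [e]
  exact_mod_cast h

open Pool.Agent.U962.DM in
theorem exact_val (m n : ℕ) (hm : 1 ≤ m) (hn : 1 ≤ n) (h : m % 3 ≠ 2 ∨ ¬ 3 ∣ n) :
    nuDiff 3 m n =
      ((padicValNat 3 n + 2 * padicValNat 3 m + padicValNat 3 (m + 1) + 2 : ℕ) : ℕ∞) := by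
  obtain ⟨h1, h2⟩ := main m n hm hn
  have h3 := h2 h
  unfold nuDiff
  rw [d_eq, d_eq, emultiplicity_eq_coe]
  have e : padicValNat 3 n + 2 * padicValNat 3 m + padicValNat 3 (m + 1) + 2 =
    ee m + padicValNat 3 n := by unfold ee; ring
  rw [e]
  exact ⟨by exact_mod_cast h1, by exact_mod_cast h3⟩

theorem strict (m n : ℕ) (hn : 1 ≤ n) (h : m % 9 = 8) :
    ((padicValNat 3 n + 4 : ℕ) : ℕ∞) ≤ nuDiff 3 m n := by
  refine le_trans ?_ (lower m n (by omega) hn)
  have hfact : Fact (Nat.Prime 3) := ⟨Nat.prime_three⟩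
  have h1 : 2 ≤ padicValNat 3 (m + 1) := by
    rw [← padicValNat_dvd_iff_le (by omega)]
    omega
  exact_mod_cast (by omega : padicValNat 3 n + 4 ≤
    padicValNat 3 n + 2 * padicValNat 3 m + padicValNat 3 (m + 1) + 2)

theorem q2_iff (m : ℕ) (h : m % 3 = 2) : Q2For 3 m ↔ m % 9 ≠ 8 := by
  have hfact : Fact (Nat.Prime 3) := ⟨Nat.prime_three⟩
  have hm : padicValNat 3 m = 0 := padicValNat.eq_zero_of_not_dvd (by omega)
  have e4 : 4 - ind 3 = 3 := by simp [ind]
  constructor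
  · rintro ⟨_, h2⟩ h8
    rw [e4] at h2
    obtain ⟨n, hn1, hn2⟩ := h2.nonempty
    have h3 := strict m n hn1 h8
    rw [hn2] at h3
    have : padicValNat 3 n + 4 ≤ padicValNat 3 n + 3 := by exact_mod_cast h3
    omega
  · intro h8
    have h1 : padicValNat 3 (m + 1) = 1 := by
      apply le_antisymm
      · by_contra hlt
        have : 2 ≤ padicValNat 3 (m + 1) := by omega
        rw [← padicValNat_dvd_iff_le (by omega)] at this
        omega
      · rw [← padicValNat_dvd_iff_le (by omega)]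
        omega
    rw [Q2For, e4]
    refine ⟨fun n hn => ?_, ?_⟩
    · have := lower m n (by omega) hn
      rwa [hm, h1] at this
    · apply Set.infinite_of_injective_forall_mem (f := fun k : ℕ => 3 * k + 1)
      · intro a b hab
        simp only at hab
        omega
      · intro k
        refine ⟨by omega, ?_⟩
        have := exact_val m (3 * k + 1) (by omega) (by omega) (Or.inr (by omega))
        rwa [hm, h1] at this

/-- Q2 is false.  For `p = 3` its assertion holds exactly for the `m ≡ 2 (mod 3)` with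
`m ≢ 8 (mod 9)`: for `m ≡ 8 (mod 9)` the inequality is strict for every `n`.  For `p = 3` the
formula of Q1 holds for all `m ≢ 2 (mod 3)` and all `n`, and for `m ≡ 2 (mod 3)` the valuation is at
least `ν(n) + ν(m + 1) + 2`, with equality if `3 ∤ n`. -/
theorem result :
    ¬ Q2 ∧
    (∀ m : ℕ, m % 3 = 2 → (Q2For 3 m ↔ m % 9 ≠ 8)) ∧
    (∀ m n : ℕ, 1 ≤ n → m % 9 = 8 → ((padicValNat 3 n + 4 : ℕ) : ℕ∞) ≤ nuDiff 3 m n) ∧
    (∀ m n : ℕ, 1 ≤ m → 1 ≤ n → m % 3 ≠ 2 →
      nuDiff 3 m n = ((padicValNat 3 n + 2 * padicValNat 3 m + 2 : ℕ) : ℕ∞)) ∧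
    (∀ m n : ℕ, 1 ≤ n → m % 3 = 2 →
      ((padicValNat 3 n + padicValNat 3 (m + 1) + 2 : ℕ) : ℕ∞) ≤ nuDiff 3 m n ∧
      (¬ 3 ∣ n → nuDiff 3 m n = ((padicValNat 3 (m + 1) + 2 : ℕ) : ℕ∞))) := by
  refine ⟨?_, q2_iff, fun m n hn h => strict m n hn h, ?_, ?_⟩
  · intro h
    exact (q2_iff 8 (by norm_num)).mp (h 3 8 Nat.prime_three le_rfl (by norm_num) (by norm_num))
      (by norm_num)
  · intro m n hm hn h
    have h1 : padicValNat 3 (m + 1) = 0 := padicValNat.eq_zero_of_not_dvd (by omega)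
    have := exact_val m n hm hn (Or.inl h)
    rwa [h1] at this
  · intro m n hn h
    have h1 : padicValNat 3 m = 0 := padicValNat.eq_zero_of_not_dvd (by omega)
    refine ⟨?_, fun h3 => ?_⟩
    · have := lower m n (by omega) hn
      rwa [h1] at this
    · have := exact_val m n (by omega) hn (Or.inr h3)
      rw [h1, padicValNat.eq_zero_of_not_dvd h3] at this
      rw [this]
      norm_num

end Pool.Agent.Results.MP_26251e_nt.PrimeThree
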